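import Pool.Agent.Y491.KS.Undec

/-!
# A large total undecidedness of one element gives a nearly balanced pair
-/

set_option autoImplicit false
set_option linter.unusedSectionVars false

open Finset Filter Topology
open scoped Classical

namespace Pool.Agent.Y491.KS

open Pool.Agent.TH161.LW Pool.Agent.TH161.KS Pool.Agent.Y352.KSR Pool.Agent.H13R3.WB

lemma log_ge_one {ε : ℝ} (hε : 0 < ε) (hε2 : ε ≤ 1 / 2) : 1 ≤ Real.log (2 / ε) := by
  have h1 : (4 : ℝ) ≤ 2 / ε := by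
    rw [le_div_iff₀ hε]
    linarith
  have h2 : Real.exp 1 ≤ 2 / ε := by
    have := Real.exp_one_lt_d9
    linarith
  rw [← Real.log_exp 1]
  exact Real.log_le_log (Real.exp_pos _) h2

lemma E_ge_one {ε : ℝ} (hε : 0 < ε) (hε2 : ε ≤ 1 / 2) : 1 ≤ Real.log (2 / ε) ^ 3 / ε ^ 4 := by
  rw [le_div_iff₀ (by positivity), one_mul]
  exact (pow_le_one₀ hε.le (by linarith)).trans (one_le_pow₀ (log_ge_one hε hε2))

lemma scl_le {B₀ ε : ℝ} (hB₀ : 1 ≤ B₀) (hε : 0 < ε) (hε2 : ε ≤ 1 / 2) :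
    scl B₀ ε ≤ Real.exp (128 * B₀ * (Real.log (2 / ε) ^ 3 / ε ^ 4)) := by
  have hℓ := log_ge_one hε hε2
  have h1 : Real.log (2 / (ε / 2)) ≤ 2 * Real.log (2 / ε) := by
    have h2 : 2 / (ε / 2) = 2 * (2 / ε) := by field_simp
    rw [h2, Real.log_mul (by norm_num) (by positivity)]
    have h3 : Real.log 2 ≤ Real.log (2 / ε) := by
      refine Real.log_le_log (by norm_num) ?_
      rw [le_div_iff₀ hε]
      linarith
    linarith
  have h4 : 0 ≤ Real.log (2 / (ε / 2)) := by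
    refine Real.log_nonneg ?_
    rw [le_div_iff₀ (by positivity)]
    linarith
  unfold scl
  rw [Real.exp_le_exp]
  calc B₀ * Real.log (2 / (ε / 2)) ^ 3 / (ε / 2) ^ 4
      ≤ B₀ * (2 * Real.log (2 / ε)) ^ 3 / (ε / 2) ^ 4 := by gcongr
    _ = 128 * B₀ * (Real.log (2 / ε) ^ 3 / ε ^ 4) := by
        field_simp
        ring

lemma scl_ge {B₀ ε : ℝ} (hB₀ : 1 ≤ B₀) (hε : 0 < ε) (hε2 : ε ≤ 1 / 2) : 1 ≤ scl B₀ ε := by
  unfold scl
  rw [Real.one_le_exp_iff]
  have h4 : 0 ≤ Real.log (2 / (ε / 2)) := by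
    refine Real.log_nonneg ?_
    rw [le_div_iff₀ (by positivity)]
    linarith
  positivity

/-- the total undecidedness of an element, with the scale -/
theorem total_le : ∃ K D B₀ : ℝ, 0 < K ∧ 1 ≤ D ∧ 1 ≤ B₀ ∧ ∀ ε : ℝ, 0 < ε → ε ≤ 1 / 2 →
      ∀ (P : Type) [Fintype P] [PartialOrder P],
      (∀ x y : P, x ≠ y → (1 / 2 - ε) * (eN P : ℝ) ≤ eP P x y →
        (eP P y x : ℝ) < (1 / 2 - ε) * (eN P : ℝ)) →
      ∀ x : P, ∑ z : P, min ((eP P x z : ℝ) / eN P) ((eP P z x : ℝ) / eN P) ≤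
        K * (scl B₀ ε + D) ^ 7 + 2 := by
  obtain ⟨C, B₀, D, hC, hB₀, hD, hS⟩ := scale
  have hC0 : 0 < C := by linarith
  refine ⟨17 * 720 * 54 ^ 6 * 2 * C ^ 7, D, B₀, by positivity, hD, hB₀,
    fun ε hε hε2 P _ _ hcon x => ?_⟩
  have _ : Nonempty P := ⟨x⟩
  obtain ⟨Q, instF, instP, ι, M, hinj, hStd, hcard, hprob, hF1, hF2⟩ := hS ε hε hε2 P hcon
  obtain ⟨R, hR⟩ : ∃ R : ℝ, R = scl B₀ ε + D := ⟨_, rfl⟩
  have hs1 := scl_ge hB₀ hε hε2
  have hR1 : 1 ≤ R := by rw [hR]; linarith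
  rw [← hR] at hF1 hF2 ⊢
  have hne := hStd.ne
  obtain ⟨u, hu⟩ : ∃ u : Q → ℝ, u = fun z => min (pr Q M (fun f => f (ι x) < f z))
      (pr Q M (fun f => f z < f (ι x))) := ⟨_, rfl⟩
  have hu0 : ∀ z, 0 ≤ u z := fun z => by rw [hu]; exact le_min (pr_nonneg _) (pr_nonneg _)
  have h1 : ∑ z : Q, u z ≤ 17 * 720 * (54 * (C * R)) ^ 6 * (2 * C * R) := by
    have h2 : ∀ z ∈ (univ : Finset Q), u z ≤
        17 * 720 * (54 * (C * R)) ^ 6 * (1 / (1 + |hh M z - hh M (ι x)|) ^ 3) := fun z _ => by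
      rw [hu]
      exact und_le hStd hC hR1 (ι x) z (hF1 _ _)
    refine (sum_le_sum h2).trans ?_
    rw [← mul_sum]
    refine mul_le_mul_of_nonneg_left ?_ (by positivity)
    exact sum_cube univ (fun z => |hh M z - hh M (ι x)|) (fun _ _ => abs_nonneg _) hC hR1
      (fun r hr => hF2 (ι x) r hr)
  obtain ⟨κ, hκ⟩ : ∃ κ : ℝ, κ = pr Q M (fun f => ¬ Function.Injective f) := ⟨_, rfl⟩
  have hκ0 : 0 ≤ κ := by rw [hκ]; exact pr_nonneg _
  have h3 : ∀ z ∈ (univ : Finset P),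
      min ((eP P x z : ℝ) / eN P) ((eP P z x : ℝ) / eN P) ≤ u (ι z) + 2 * κ := by
    intro z _
    by_cases hxz : x = z
    · subst hxz
      have h4 : eP P x x = 0 := by
        unfold eP
        rw [Nat.card_eq_zero]
        left
        exact ⟨fun f => lt_irrefl _ f.2.2⟩
      rw [h4]
      simp only [Nat.cast_zero, zero_div, min_self]
      have := hu0 (ι x)
      linarith
    · have hxz' : ι x ≠ ι z := fun h => hxz (hinj h)
      have h4 := eP_le_pr hne (ι x) (ι z) hxz'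
      have h5 := eP_le_pr hne (ι z) (ι x) hxz'.symm
      rw [hprob, ← hκ] at h4 h5
      rw [hu]
      simp only
      rw [← min_add_add_right]
      exact min_le_min h4 h5
  have h6 : ∑ z : P, u (ι z) ≤ ∑ z : Q, u z := by
    rw [← Finset.sum_image (f := u) (g := ι) (s := univ) (fun a _ b _ h => hinj h)]
    exact Finset.sum_le_sum_of_subset_of_nonneg (Finset.subset_univ _) fun z _ _ => hu0 z
  have h7 : (Fintype.card P : ℝ) * (2 * κ) ≤ 2 := by
    have h8 : κ ≤ 1 / ((Fintype.card Q : ℝ) + 1) ^ 4 := by rw [hκ]; exact hStd.ninj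
    have h9 : (Fintype.card P : ℝ) ≤ Fintype.card Q := by exact_mod_cast hcard
    have h10 : (0 : ℝ) ≤ Fintype.card P := by positivity
    have h11 : 1 / ((Fintype.card Q : ℝ) + 1) ^ 4 ≤ 1 / ((Fintype.card Q : ℝ) + 1) := by
      refine one_div_le_one_div_of_le (by positivity) ?_
      exact le_self_pow₀ (by linarith) (by norm_num)
    have h12 : (Fintype.card Q : ℝ) * (1 / ((Fintype.card Q : ℝ) + 1)) ≤ 1 := by
      rw [mul_one_div, div_le_one (by positivity)]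
      linarith
    calc (Fintype.card P : ℝ) * (2 * κ) = 2 * ((Fintype.card P : ℝ) * κ) := by ring
      _ ≤ 2 * ((Fintype.card Q : ℝ) * (1 / ((Fintype.card Q : ℝ) + 1))) := by
          have := mul_le_mul h9 (h8.trans h11) hκ0 (by positivity)
          linarith
      _ ≤ 2 := by linarith
  calc ∑ z : P, min ((eP P x z : ℝ) / eN P) ((eP P z x : ℝ) / eN P)
      ≤ ∑ z : P, (u (ι z) + 2 * κ) := sum_le_sum h3
    _ = ∑ z : P, u (ι z) + (Fintype.card P : ℝ) * (2 * κ) := by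
        rw [sum_add_distrib, sum_const, nsmul_eq_mul, card_univ]
    _ ≤ 17 * 720 * (54 * (C * R)) ^ 6 * (2 * C * R) + 2 := by linarith
    _ = 17 * 720 * 54 ^ 6 * 2 * C ^ 7 * R ^ 7 + 2 := by ring

/-- the main theorem in terms of numbers of linear extensions -/
theorem undecided : ∃ B : ℝ, 0 < B ∧ ∀ ε : ℝ, 0 < ε → ε ≤ 1 / 2 →
      ∀ (P : Type) [Fintype P] [PartialOrder P] (x : P),
      Real.exp (B * Real.log (2 / ε) ^ 3 / ε ^ 4) ≤
        ∑ z : P, min ((eP P x z : ℝ) / eN P) ((eP P z x : ℝ) / eN P) →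
      ∃ u v : P, u ≠ v ∧ (1 / 2 - ε) * (eN P : ℝ) ≤ eP P u v ∧
        (1 / 2 - ε) * (eN P : ℝ) ≤ eP P v u := by
  obtain ⟨K, D, B₀, hK, hD, hB₀, hT⟩ := total_le
  obtain ⟨G, hG⟩ : ∃ G : ℝ, G = (K + 2) * (1 + D) ^ 7 := ⟨_, rfl⟩
  have hG0 : 0 < G := by rw [hG]; positivity
  refine ⟨G + 896 * B₀, by linarith, fun ε hε hε2 P _ _ x hx => ?_⟩
  by_contra hcon
  push Not at hcon
  have h1 := hx.trans (hT ε hε hε2 P hcon x)
  obtain ⟨E, hE⟩ : ∃ E : ℝ, E = Real.log (2 / ε) ^ 3 / ε ^ 4 := ⟨_, rfl⟩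
  have hE1 : 1 ≤ E := by rw [hE]; exact E_ge_one hε hε2
  obtain ⟨s, hs⟩ : ∃ s : ℝ, s = scl B₀ ε := ⟨_, rfl⟩
  have hs1 : 1 ≤ s := by rw [hs]; exact scl_ge hB₀ hε hε2
  have hs2 : s ≤ Real.exp (128 * B₀ * E) := by rw [hs, hE]; exact scl_le hB₀ hε hε2
  rw [← hs] at h1
  have h2 : K * (s + D) ^ 7 + 2 ≤ G * s ^ 7 := by
    have h3 : s + D ≤ (1 + D) * s := by nlinarith
    have h4 : (s + D) ^ 7 ≤ ((1 + D) * s) ^ 7 := pow_le_pow_left₀ (by linarith) h3 7
    have h5 : (1 : ℝ) ≤ ((1 + D) * s) ^ 7 := one_le_pow₀ (by nlinarith)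
    calc K * (s + D) ^ 7 + 2 ≤ K * ((1 + D) * s) ^ 7 + 2 * ((1 + D) * s) ^ 7 := by
          have := mul_le_mul_of_nonneg_left h4 hK.le
          linarith
      _ = G * s ^ 7 := by rw [hG]; ring
  have h6 : s ^ 7 ≤ Real.exp (896 * B₀ * E) := by
    calc s ^ 7 ≤ Real.exp (128 * B₀ * E) ^ 7 := pow_le_pow_left₀ (by linarith) hs2 7
      _ = Real.exp (896 * B₀ * E) := by
          rw [← Real.exp_nat_mul]
          congr 1
          push_cast
          ring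
  have h7 : G < Real.exp (G * E) := by
    have h8 := Real.add_one_le_exp (G * E)
    have h9 : G * 1 ≤ G * E := mul_le_mul_of_nonneg_left hE1 hG0.le
    linarith
  have h8 : G * s ^ 7 < Real.exp (G * E) * Real.exp (896 * B₀ * E) :=
    calc G * s ^ 7 ≤ G * Real.exp (896 * B₀ * E) := mul_le_mul_of_nonneg_left h6 hG0.le
      _ < _ := mul_lt_mul_of_pos_right h7 (Real.exp_pos _)
  rw [← Real.exp_add] at h8
  have h9 : (G + 896 * B₀) * Real.log (2 / ε) ^ 3 / ε ^ 4 = G * E + 896 * B₀ * E := by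
    rw [hE]
    ring
  rw [h9] at h1
  linarith

lemma prob_eq (P : Type) [Fintype P] [PartialOrder P] (x y : P) :
    prob P x y = (eP P x y : ℝ) / eN P := by
  unfold prob eP eN
  have h : ∀ f : P ≃ Fin (Fintype.card P), Monotone ⇑f ↔ StrictMono ⇑f := fun f =>
    ⟨fun h => h.strictMono_of_injective f.injective, fun h => h.monotone⟩
  simp only [h]

/-- the main theorem in terms of the balance constant -/
theorem undecided_balance : ∃ B : ℝ, 0 < B ∧ ∀ ε : ℝ, 0 < ε → ε ≤ 1 / 2 →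
      ∀ (P : Type) [Fintype P] [PartialOrder P] (x : P),
      Real.exp (B * Real.log (2 / ε) ^ 3 / ε ^ 4) ≤ ∑ z : P, min (prob P x z) (prob P z x) →
      1 / 2 - ε ≤ balance P := by
  obtain ⟨B, hB, h⟩ := undecided
  refine ⟨B, hB, fun ε hε hε2 P _ _ x hx => ?_⟩
  simp only [prob_eq] at hx
  obtain ⟨u, v, -, h1, h2⟩ := h ε hε hε2 P x hx
  have he : (0 : ℝ) < eN P := by exact_mod_cast eN_pos P
  have h1' : 1 / 2 - ε ≤ prob P u v := by
    rw [prob_eq, le_div_iff₀ he]; exact h1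
  have h2' : 1 / 2 - ε ≤ prob P v u := by
    rw [prob_eq, le_div_iff₀ he]; exact h2
  unfold balance
  exact (le_min h1' h2').trans
    (le_ciSup (f := fun p : P × P => min (prob P p.1 p.2) (prob P p.2 p.1))
      (Set.finite_range _).bddAbove (u, v))

end Pool.Agent.Y491.KS
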