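import Pool.Agent.Y491.KS.Scale
import Pool.Agent.H13R3.WB.Lin

/-!
# The total undecidedness of an element
-/

set_option autoImplicit false
set_option linter.unusedSectionVars false

open Finset Filter Topology
open scoped Classical

namespace Pool.Agent.Y491.KS

open Pool.Agent.TH161.LW Pool.Agent.TH161.KS Pool.Agent.Y352.KSR

lemma sum_inv_sq (n : ℕ) : ∑ j ∈ range (n + 1), (1 : ℝ) / ((j : ℝ) + 1) ^ 2 ≤ 2 - 1 / ((n : ℝ) + 1) := by
  induction n with
  | zero => norm_num
  | succ n ih =>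
    rw [sum_range_succ]
    have h : (1 : ℝ) / (((n + 1 : ℕ) : ℝ) + 1) ^ 2 ≤ 1 / ((n : ℝ) + 1) - 1 / (((n + 1 : ℕ) : ℝ) + 1) := by
      push_cast
      have h1 : (0 : ℝ) < (n : ℝ) + 1 := by positivity
      rw [div_sub_div _ _ (by positivity) (by positivity), div_le_div_iff₀ (by positivity)
        (by positivity)]
      nlinarith
    linarith

/-- sum over a set whose counting function is linear -/
lemma sum_cube {β : Type*} (s : Finset β) (d : β → ℝ) (hd : ∀ z ∈ s, 0 ≤ d z) {C R : ℝ}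
    (hC : 1 ≤ C) (hR : 1 ≤ R)
    (hN : ∀ r : ℝ, R ≤ r → ((s.filter fun z => d z ≤ r).card : ℝ) ≤ C * r) :
    ∑ z ∈ s, 1 / (1 + d z) ^ 3 ≤ 2 * C * R := by
  obtain ⟨J, hJ⟩ : ∃ J : ℕ, ∀ z ∈ s, ⌊d z⌋₊ ≤ J :=
    ⟨s.sup fun z => ⌊d z⌋₊, fun z hz => Finset.le_sup (f := fun z => ⌊d z⌋₊) hz⟩
  have h1 : ∑ z ∈ s, 1 / (1 + d z) ^ 3 =
      ∑ j ∈ range (J + 1), ∑ z ∈ s with ⌊d z⌋₊ = j, 1 / (1 + d z) ^ 3 :=
    (Finset.sum_fiberwise_of_maps_to (fun z hz => mem_range.mpr (Nat.lt_succ_of_le (hJ z hz))) _).symm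
  rw [h1]
  have h2 : ∀ j ∈ range (J + 1), ∑ z ∈ s with ⌊d z⌋₊ = j, 1 / (1 + d z) ^ 3 ≤
      C * R * (1 / ((j : ℝ) + 1) ^ 2) := by
    intro j _
    have hj : (0 : ℝ) < (j : ℝ) + 1 := by positivity
    have h3 : ∑ z ∈ s with ⌊d z⌋₊ = j, 1 / (1 + d z) ^ 3 ≤
        ∑ z ∈ s with ⌊d z⌋₊ = j, 1 / ((j : ℝ) + 1) ^ 3 := by
      refine sum_le_sum fun z hz => ?_
      obtain ⟨hz1, hz2⟩ := mem_filter.mp hz
      have h4 := Nat.floor_le (hd z hz1)
      rw [hz2] at h4
      refine one_div_le_one_div_of_le (by positivity) (pow_le_pow_left₀ hj.le (by linarith) 3)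
    have h5 : ((s.filter fun z => ⌊d z⌋₊ = j).card : ℝ) ≤ C * (R * ((j : ℝ) + 1)) := by
      refine le_trans ?_ (hN (R * ((j : ℝ) + 1)) (by nlinarith))
      have h6 : (s.filter fun z => ⌊d z⌋₊ = j) ⊆ s.filter fun z => d z ≤ R * ((j : ℝ) + 1) := by
        intro z hz
        obtain ⟨hz1, hz2⟩ := mem_filter.mp hz
        refine mem_filter.mpr ⟨hz1, ?_⟩
        have h7 := (Nat.lt_floor_add_one (d z)).le
        rw [hz2] at h7
        nlinarith
      exact_mod_cast card_le_card h6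
    refine h3.trans ?_
    rw [sum_const, nsmul_eq_mul]
    calc ((s.filter fun z => ⌊d z⌋₊ = j).card : ℝ) * (1 / ((j : ℝ) + 1) ^ 3)
        ≤ C * (R * ((j : ℝ) + 1)) * (1 / ((j : ℝ) + 1) ^ 3) :=
          mul_le_mul_of_nonneg_right h5 (by positivity)
      _ = C * R * (1 / ((j : ℝ) + 1) ^ 2) := by
          field_simp
  refine (sum_le_sum h2).trans ?_
  rw [← mul_sum]
  have h3 := sum_inv_sq J
  have h4 : (0 : ℝ) ≤ 1 / ((J : ℝ) + 1) := by positivity
  have h5 : 0 ≤ C * R := by nlinarith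
  nlinarith

/-- the tail in terms of the difference of the heights -/
lemma tail_num {C R t : ℝ} (hC : 1 ≤ C) (hR : 1 ≤ R) (ht : 0 ≤ t) :
    17 * Real.exp (-(t / (9 * (C * (R + √t) + 1)))) ≤
      17 * 720 * (54 * (C * R)) ^ 6 * (1 / (1 + t) ^ 3) := by
  have hCR : 1 ≤ C * R := by nlinarith
  have hpow : (1 : ℝ) ≤ (54 * (C * R)) ^ 6 := one_le_pow₀ (by linarith)
  rcases lt_or_ge t 1 with h | h
  · have h1 : Real.exp (-(t / (9 * (C * (R + √t) + 1)))) ≤ 1 := by
      rw [Real.exp_le_one_iff]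
      have : 0 ≤ t / (9 * (C * (R + √t) + 1)) := by positivity
      linarith
    have h2 : (1 + t) ^ 3 ≤ 8 := by
      have : (1 + t) ^ 3 ≤ 2 ^ 3 := pow_le_pow_left₀ (by linarith) (by linarith) 3
      linarith
    have h3 : (1 : ℝ) / 8 ≤ 1 / (1 + t) ^ 3 := one_div_le_one_div_of_le (by positivity) h2
    have h4 : 17 * 720 * 1 * ((1 : ℝ) / 8) ≤ 17 * 720 * (54 * (C * R)) ^ 6 * (1 / (1 + t) ^ 3) := by
      gcongr
    linarith
  · obtain ⟨s, hs⟩ : ∃ s : ℝ, s = √(1 + t) := ⟨_, rfl⟩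
    have hs2 : s ^ 2 = 1 + t := by rw [hs]; exact Real.sq_sqrt (by linarith)
    have hs1 : 1 ≤ s := by rw [hs]; exact Real.one_le_sqrt.mpr (by linarith)
    have hst : √t ≤ s := by rw [hs]; exact Real.sqrt_le_sqrt (by linarith)
    have hst0 : 0 ≤ √t := Real.sqrt_nonneg _
    obtain ⟨y, hy⟩ : ∃ y : ℝ, y = t / (9 * (C * (R + √t) + 1)) := ⟨_, rfl⟩
    have hden : 9 * (C * (R + √t) + 1) ≤ 27 * (C * R) * s := by
      have e1 : C * R ≤ C * R * s := le_mul_of_one_le_right (by linarith) hs1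
      have e2 : C * √t ≤ C * R * s := by
        calc C * √t ≤ C * s := by gcongr
          _ ≤ C * R * s := by nlinarith
      have e3 : 1 ≤ C * R * s := by nlinarith
      nlinarith
    have hden0 : 0 < 9 * (C * (R + √t) + 1) := by positivity
    have hy1 : s / (54 * (C * R)) ≤ y := by
      rw [hy, div_le_div_iff₀ (by positivity) hden0]
      calc s * (9 * (C * (R + √t) + 1)) ≤ s * (27 * (C * R) * s) := by gcongr
        _ = 27 * (C * R) * (1 + t) := by rw [← hs2]; ring
        _ ≤ t * (54 * (C * R)) := by nlinarith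
    have hy0 : 0 < y := lt_of_lt_of_le (by positivity) hy1
    rw [← hy]
    have h1 := Real.pow_div_factorial_le_exp y hy0.le 6
    have h2 : ((Nat.factorial 6 : ℕ) : ℝ) = 720 := by norm_num [Nat.factorial]
    rw [h2] at h1
    have h3 : Real.exp (-y) ≤ 720 / y ^ 6 := by
      rw [Real.exp_neg, inv_eq_one_div, div_le_div_iff₀ (Real.exp_pos _) (by positivity)]
      rw [div_le_iff₀ (by norm_num)] at h1
      linarith
    have h4 : 720 / y ^ 6 ≤ 720 / (s / (54 * (C * R))) ^ 6 := by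
      gcongr
    have h5 : 720 / (s / (54 * (C * R))) ^ 6 = 720 * (54 * (C * R)) ^ 6 * (1 / (1 + t) ^ 3) := by
      rw [← hs2]
      have : s ≠ 0 := by linarith
      field_simp
    calc 17 * Real.exp (-y) ≤ 17 * (720 * (54 * (C * R)) ^ 6 * (1 / (1 + t) ^ 3)) := by
          rw [← h5]
          have := h3.trans h4
          linarith
      _ = _ := by ring

variable {α : Type} [Fintype α] [PartialOrder α] {M : ℕ}

/-- the smaller of the two probabilities decreases with the difference of the heights -/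
lemma und_le (hStd : Std α M) {C R : ℝ} (hC : 1 ≤ C) (hR : 1 ≤ R) (x z : α)
    (hF : tau M x z ≤ C * (R + √|hh M z - hh M x|)) :
    min (pr α M (fun f => f x < f z)) (pr α M (fun f => f z < f x)) ≤
      17 * 720 * (54 * (C * R)) ^ 6 * (1 / (1 + |hh M z - hh M x|) ^ 3) := by
  have h1 := hStd.tail x z (hh M z - hh M x) (C * (R + √|hh M z - hh M x|)) |hh M z - hh M x| hF
  have h2 := tail_num hC hR (abs_nonneg (hh M z - hh M x))
  have hK : 0 < unit α M := unit_pos
  rcases le_total 0 (hh M z - hh M x) with h | h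
  · refine (min_le_right _ _).trans ((pr_mono fun f _ hf => ?_).trans (h1.trans h2))
    have h3 : dd M x z f < 0 := by
      unfold dd
      refine div_neg_of_neg_of_pos ?_ hK
      have : (f z : ℝ) < f x := by exact_mod_cast hf
      linarith
    rw [abs_of_nonneg h, abs_of_nonpos (by linarith)]
    linarith
  · refine (min_le_left _ _).trans ((pr_mono fun f _ hf => ?_).trans (h1.trans h2))
    have h3 : 0 < dd M x z f := by
      unfold dd
      refine div_pos ?_ hK
      have : (f x : ℝ) < f z := by exact_mod_cast hf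
      linarith
    rw [abs_of_nonpos h, abs_of_nonneg (by linarith)]
    linarith

lemma eP_add (x y : α) (hxy : x ≠ y) : (eP α x y : ℝ) + eP α y x = eN α := by
  have h : eP α x y + eP α y x = eN α := by
    unfold eP eN
    rw [← Nat.card_sum]
    refine Nat.card_congr ?_
    refine ⟨fun s => s.elim (fun f => ⟨f.1, f.2.1⟩) (fun f => ⟨f.1, f.2.1⟩),
      fun f => if h : f.1 x < f.1 y then Sum.inl ⟨f.1, f.2, h⟩ else
        Sum.inr ⟨f.1, f.2, lt_of_le_of_ne (not_lt.mp h) fun h' => hxy (f.1.injective h').symm⟩,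
      ?_, ?_⟩
    · rintro (f | f)
      · simp [f.2.2]
      · simp [not_lt.mpr f.2.2.le]
    · intro f
      by_cases h : f.1 x < f.1 y <;> simp [h]
  exact_mod_cast h

/-- probabilities for linear extensions and for maps -/
lemma eP_le_pr (hne : (Om α M).Nonempty) (x y : α) (hxy : x ≠ y) :
    (eP α x y : ℝ) / eN α ≤ pr α M (fun f => f x < f y) +
      2 * pr α M (fun f => ¬ Function.Injective f) := by
  have he : (0 : ℝ) < eN α := by exact_mod_cast eN_pos α
  have h1 := pr_lt_le hne y x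
  have h2 := eP_add x y hxy
  have h3 : (eP α x y : ℝ) / eN α = 1 - (eP α y x : ℝ) / eN α := by
    rw [eq_sub_iff_add_eq, ← add_div, h2, div_self he.ne']
  have h4 : 1 ≤ pr α M (fun f => f x < f y) + (pr α M (fun f => f y < f x) +
      pr α M (fun f => ¬ Function.Injective f)) := by
    rw [← pr_true (M := M) hne (p := fun _ => True) fun _ _ => trivial]
    refine (pr_le_add (q := fun f => f x < f y)
      (r := fun f => f y < f x ∨ ¬ Function.Injective f) fun f _ _ => ?_).trans ?_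
    · rcases lt_trichotomy (f x) (f y) with h | h | h
      · exact Or.inl h
      · exact Or.inr (Or.inr fun hi => hxy (hi h))
      · exact Or.inr (Or.inl h)
    · have := pr_or (M := M) (fun f : α → ℕ => f y < f x) (fun f => ¬ Function.Injective f)
      linarith
  linarith

end Pool.Agent.Y491.KS
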